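import Pool.Agent.MP_5c28a4_al.H13S.Base

/-! Row RED: reduction modulo a normal subgroup that acts nilpotently. -/

set_option autoImplicit false

namespace Pool.Agent.MP_5c28a4_al.H89S.StrA

namespace RedA

variable {N A : Type} [Group N] [AddCommGroup A] (ρ : Representation ℤ N A) (Y : Subgroup N)

/-- the image of the `n`-th power of the ideal of the group ring defined by `Y` -/
def J (n : ℕ) : Submodule ℤ (Module.End ℤ A) := Submodule.span ℤ
  {x | ∃ (l : List N) (g : N), l.length = n ∧ (∀ y ∈ l, y ∈ Y) ∧ x = wd ρ l * ρ g}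

variable {ρ Y}

theorem J_mul [hY : Y.Normal] {a b : ℕ} {x y : Module.End ℤ A} (hx : x ∈ J ρ Y a)
    (hy : y ∈ J ρ Y b) : x * y ∈ J ρ Y (a + b) := by
  have h : J ρ Y a * J ρ Y b ≤ J ρ Y (a + b) := by
    unfold J
    rw [Submodule.span_mul_span]
    refine Submodule.span_mono ?_
    rintro _ ⟨_, ⟨l, g, rfl, hl, rfl⟩, _, ⟨l', g', rfl, hl', rfl⟩, rfl⟩
    refine ⟨l ++ l'.map fun y => g * y * g⁻¹, g * g', by simp, fun y hy => ?_, ?_⟩
    · rcases List.mem_append.1 hy with h | h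
      · exact hl y h
      · obtain ⟨z, hz, rfl⟩ := List.mem_map.1 h
        exact hY.conj_mem z (hl' z hz) g
    · change wd ρ l * ρ g * (wd ρ l' * ρ g') = _
      rw [wd_append, map_mul, mul_assoc, ← mul_assoc (ρ g), wd_conj]
      simp only [mul_assoc]
  exact h (Submodule.mul_mem_mul hx hy)

theorem J_kill {m : ℤ} {t : ℕ} (h : Kill ρ m Y t) {x : Module.End ℤ A} (hx : x ∈ J ρ Y t) :
    m • x = 0 := by
  induction hx using Submodule.span_induction with
  | mem x hx =>
    obtain ⟨l, g, h1, h2, rfl⟩ := hx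
    rw [← smul_mul_assoc, kill_iff.1 h l h1 h2, zero_mul]
  | zero => simp
  | add x y _ _ hx hy => rw [smul_add, hx, hy, add_zero]
  | smul c x _ hx => rw [smul_comm, hx, smul_zero]

theorem J_zero (r : MonoidAlgebra ℤ N) : ρ.asAlgebraHom r ∈ J ρ Y 0 := by
  induction r using MonoidAlgebra.induction_on with
  | of g =>
    rw [Representation.asAlgebraHom_of]
    exact Submodule.subset_span ⟨[], g, rfl, by simp, by simp⟩
  | add x y hx hy => rw [map_add]; exact add_mem hx hy
  | smul c x hx => rw [map_smul]; exact Submodule.smul_mem _ c hx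

variable (ρ Y)

/-- the ideal of the group ring -/
def I [Y.Normal] : Ideal (MonoidAlgebra ℤ N) where
  carrier := {r | ρ.asAlgebraHom r ∈ J ρ Y 1}
  zero_mem' := by simp
  add_mem' := fun {a b} ha hb => by
    change ρ.asAlgebraHom (a + b) ∈ J ρ Y 1
    rw [map_add]; exact add_mem ha hb
  smul_mem' := fun c x hx => by
    change ρ.asAlgebraHom (c * x) ∈ J ρ Y (0 + 1)
    rw [map_mul]; exact J_mul (J_zero c) hx

instance [Y.Normal] : (I ρ Y).IsTwoSided := ⟨fun {a} b ha => by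
  change ρ.asAlgebraHom (a * b) ∈ J ρ Y (1 + 0)
  rw [map_mul]; exact J_mul ha (J_zero b)⟩

/-- left multiplication on the quotient -/
noncomputable def Phi [Y.Normal] :
    MonoidAlgebra ℤ N →+* Module.End ℤ (MonoidAlgebra ℤ N ⧸ I ρ Y) :=
  (Algebra.lmul ℤ (MonoidAlgebra ℤ N ⧸ I ρ Y)).toRingHom.comp (Ideal.Quotient.mk (I ρ Y))

theorem Phi_eq_zero [Y.Normal] (r : MonoidAlgebra ℤ N) :
    Phi ρ Y r = 0 ↔ ρ.asAlgebraHom r ∈ J ρ Y 1 := by
  have : Phi ρ Y r = Algebra.lmul ℤ _ (Ideal.Quotient.mk (I ρ Y) r) := rfl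
  rw [this, map_eq_zero_iff _ Algebra.lmul_injective, Ideal.Quotient.eq_zero_iff_mem]
  rfl

/-- the representation of the quotient group -/
noncomputable def rq [Y.Normal] : Representation ℤ (N ⧸ Y) (MonoidAlgebra ℤ N ⧸ I ρ Y) :=
  QuotientGroup.lift Y ((Phi ρ Y).toMonoidHom.comp (MonoidAlgebra.of ℤ N)) fun y hy => by
    rw [MonoidHom.mem_ker]
    change Phi ρ Y (MonoidAlgebra.of ℤ N y) = 1
    rw [← sub_eq_zero, ← map_one (Phi ρ Y), ← map_sub, Phi_eq_zero, map_sub, map_one,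
      Representation.asAlgebraHom_of]
    exact Submodule.subset_span ⟨[y], 1, rfl, by simpa using hy, by simp [wd_cons]⟩

theorem rq_mk [Y.Normal] (g : N) :
    rq ρ Y (QuotientGroup.mk' Y g) = Phi ρ Y (MonoidAlgebra.of ℤ N g) := rfl

/-- the product in the group ring -/
noncomputable def wr (l : List N) : MonoidAlgebra ℤ N :=
  (l.map fun y => MonoidAlgebra.of ℤ N y - 1).prod

theorem as_wr (l : List N) : ρ.asAlgebraHom (wr l) = wd ρ l := by
  induction l with
  | nil => simp [wr]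
  | cons y l ih =>
    rw [wd_cons, ← ih, wr, List.map_cons, List.prod_cons, map_mul, map_sub, map_one,
      Representation.asAlgebraHom_of]
    rfl

theorem Phi_wr [Y.Normal] (l : List N) :
    Phi ρ Y (wr l) = wd (rq ρ Y) (l.map (QuotientGroup.mk' Y)) := by
  induction l with
  | nil => simp [wr]
  | cons y l ih =>
    rw [List.map_cons, wd_cons, ← ih, wr, List.map_cons, List.prod_cons, map_mul, map_sub, map_one,
      rq_mk]
    rfl

theorem kill_rq [Y.Normal] (a : ℤ) (l : List N) :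
    a • wd (rq ρ Y) (l.map (QuotientGroup.mk' Y)) = 0 ↔ a • wd ρ l ∈ J ρ Y 1 := by
  rw [← Phi_wr, ← map_zsmul, Phi_eq_zero, map_zsmul, as_wr]

theorem lift_list {α β : Type} (f : α → β) (S : Set α) : ∀ l : List β, (∀ y ∈ l, y ∈ f '' S) →
    ∃ l' : List α, (∀ y ∈ l', y ∈ S) ∧ l'.map f = l
  | [], _ => ⟨[], by simp, rfl⟩
  | y :: l, h => by
    obtain ⟨l', h1, rfl⟩ := lift_list f S l fun z hz => h z (List.mem_cons_of_mem _ hz)
    obtain ⟨x, hx, rfl⟩ := h y List.mem_cons_self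
    exact ⟨x :: l', by simpa using ⟨hx, h1⟩, rfl⟩

theorem blocks [Y.Normal] {a : ℤ} {S : Set N} {n : ℕ}
    (h : ∀ l : List N, l.length = n → (∀ y ∈ l, y ∈ S) → a • wd ρ l ∈ J ρ Y 1) :
    ∀ (t : ℕ) (l : List N), l.length = n * t → (∀ y ∈ l, y ∈ S) → a ^ t • wd ρ l ∈ J ρ Y t
  | 0, l, hl, _ => by
    rw [pow_zero, one_smul, ← as_wr]
    exact J_zero _
  | t + 1, l, hl, hS => by
    have h1 := h (l.take n) (by rw [List.length_take, hl, Nat.mul_succ]; omega)
      fun y hy => hS y (List.mem_of_mem_take hy)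
    have h2 := blocks h t (l.drop n) (by rw [List.length_drop, hl, Nat.mul_succ]; omega)
      fun y hy => hS y (List.mem_of_mem_drop hy)
    have h3 := J_mul h1 h2
    rwa [smul_mul_smul_comm, ← wd_append, List.take_append_drop, ← pow_succ', add_comm] at h3

end RedA

open RedA in
theorem red : XRed := by
  intro N A _ _ ρ Y _ m t hY
  refine ⟨MonoidAlgebra ℤ N ⧸ I ρ Y, inferInstance, rq ρ Y, fun u hu => ?_,
    fun a S n h => ?_, fun a S n h => ?_⟩
  · refine sat_of_surj (ρ := (rq ρ Y).comp (QuotientGroup.mk' Y)) (QuotientGroup.mk' Y)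
      (QuotientGroup.mk'_surjective Y) (fun _ => rfl) fun φ => ?_
    have h1 : ρ.asAlgebraHom (u.sum fun w c => c • MonoidAlgebra.of ℤ N (φ w)) = 0 := by
      rw [← hu φ, map_finsuppSum]
      exact Finsupp.sum_congr fun w _ => by rw [map_zsmul, Representation.asAlgebraHom_of]
    have h2 := (Phi_eq_zero ρ Y _).2 (h1 ▸ zero_mem _)
    rw [← h2, map_finsuppSum]
    exact Finsupp.sum_congr fun w _ => by rw [map_zsmul]; rfl
  · rw [kill_iff]
    intro l hl hS
    obtain ⟨l', h1, rfl⟩ := lift_list _ S l hS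
    rw [kill_rq, kill_iff.1 h l' (by simpa using hl) h1]
    exact zero_mem _
  · rw [kill_iff]
    intro l hl hS
    rw [mul_smul]
    refine J_kill hY (blocks ρ Y (fun l hl hS => ?_) t l hl hS)
    rw [← kill_rq]
    refine kill_iff.1 h _ (by simpa using hl) fun y hy => ?_
    obtain ⟨x, hx, rfl⟩ := List.mem_map.1 hy
    exact ⟨x, hS x hx, rfl⟩

end Pool.Agent.MP_5c28a4_al.H89S.StrA
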