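import Pool.Agent.MP_5c28a4_al.H89S.Spec

/-! Row B4: commutator calculus. -/

set_option autoImplicit false

namespace Pool.Agent.MP_5c28a4_al.H89S

open scoped commutatorElement

namespace BComA

variable {G : Type} [Group G] {X : Subgroup G}

theorem le_self (X : Subgroup G) (n : ℕ) : X.lowerCentralSeries n ≤ X :=
  X.lowerCentralSeries_antitone (Nat.zero_le n)

theorem succ_le (X : Subgroup G) (n : ℕ) :
    X.lowerCentralSeries (n + 1) ≤ X.lowerCentralSeries n :=
  X.lowerCentralSeries_antitone (Nat.le_succ n)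

theorem comL {n : ℕ} {y t : G} (hy : y ∈ X.lowerCentralSeries n) (ht : t ∈ X) :
    ⁅y, t⁆ ∈ X.lowerCentralSeries (n + 1) :=
  Subgroup.commutator_mem_commutator hy ht

theorem comR {n : ℕ} {y t : G} (ht : t ∈ X) (hy : y ∈ X.lowerCentralSeries n) :
    ⁅t, y⁆ ∈ X.lowerCentralSeries (n + 1) := by
  rw [← commutatorElement_inv]
  exact inv_mem (comL hy ht)

theorem conj {n : ℕ} {p k : G} (hp : p ∈ X) (hk : k ∈ X.lowerCentralSeries n) :
    p * k * p⁻¹ ∈ X.lowerCentralSeries n := by
  have : p * k * p⁻¹ = ⁅p, k⁆ * k := by rw [commutatorElement_def]; group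
  rw [this]
  exact mul_mem (succ_le X n (comR hp hk)) hk

/-- congruence modulo a term of the lower central series -/
def E (X : Subgroup G) (n : ℕ) (a b : G) : Prop := a * b⁻¹ ∈ X.lowerCentralSeries n

theorem E.rfl' {n : ℕ} (a : G) : E X n a a := by
  unfold E; rw [mul_inv_cancel]; exact one_mem _

theorem E.trans {n : ℕ} {a b c : G} (h : E X n a b) (h' : E X n b c) : E X n a c := by
  have := mul_mem h h'
  unfold E
  rwa [show a * b⁻¹ * (b * c⁻¹) = a * c⁻¹ by group] at this

theorem E.mul {n : ℕ} {a a' b b' : G} (ha : a ∈ X) (h : E X n a a') (h' : E X n b b') :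
    E X n (a * b) (a' * b') := by
  have := mul_mem (conj ha h') h
  unfold E
  rwa [show a * (b * b'⁻¹) * a⁻¹ * (a * a'⁻¹) = a * b * (a' * b')⁻¹ by group] at this

theorem E.pow {n : ℕ} {a a' : G} (ha : a ∈ X) (h : E X n a a') (k : ℕ) :
    E X n (a ^ k) (a' ^ k) := by
  induction k with
  | zero => simpa using E.rfl' 1
  | succ k ih => rw [pow_succ, pow_succ]; exact E.mul (pow_mem ha k) ih h

theorem E.mem {n : ℕ} {a b : G} {R : Subgroup G} (h : E X n a b)
    (hR : X.lowerCentralSeries n ≤ R) (hb : b ∈ R) : a ∈ R := by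
  have := mul_mem (hR h) hb
  rwa [inv_mul_cancel_right] at this

theorem E.of_mem {n : ℕ} {a k : G} (ha : a ∈ X) (hk : k ∈ X.lowerCentralSeries n) :
    E X n (a * k) a := conj ha hk

theorem mulR {j : ℕ} {y a b : G} (hy : y ∈ X.lowerCentralSeries j) (ha : a ∈ X) (hb : b ∈ X) :
    E X (j + 2) ⁅y, a * b⁆ (⁅y, a⁆ * ⁅y, b⁆) := by
  have h := conj (le_self X _ (comL hy ha)) (comR ha (comL hy hb))
  unfold E
  rwa [show ⁅y, a⁆ * ⁅a, ⁅y, b⁆⁆ * ⁅y, a⁆⁻¹ = ⁅y, a * b⁆ * (⁅y, a⁆ * ⁅y, b⁆)⁻¹ by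
    simp only [commutatorElement_def]; group] at h

theorem mulL {j : ℕ} {y z t : G} (hy : y ∈ X.lowerCentralSeries j)
    (hz : z ∈ X.lowerCentralSeries j) (ht : t ∈ X) :
    E X (j + 2) ⁅y * z, t⁆ (⁅y, t⁆ * ⁅z, t⁆) := by
  have h := mul_mem (comR (le_self X _ hy) (comL hz ht))
    (comL (comL hz ht) (le_self X _ (comL hy ht)))
  unfold E
  rwa [show ⁅y, ⁅z, t⁆⁆ * ⁅⁅z, t⁆, ⁅y, t⁆⁆ = ⁅y * z, t⁆ * (⁅y, t⁆ * ⁅z, t⁆)⁻¹ by
    simp only [commutatorElement_def]; group] at h

theorem powR {j : ℕ} {y a : G} (hy : y ∈ X.lowerCentralSeries j) (ha : a ∈ X) (k : ℕ) :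
    E X (j + 2) ⁅y, a ^ k⁆ (⁅y, a⁆ ^ k) := by
  induction k with
  | zero => simpa using E.rfl' 1
  | succ k ih =>
    rw [pow_succ, pow_succ]
    exact (mulR hy (pow_mem ha k) ha).trans
      (E.mul (le_self X _ (comL hy (pow_mem ha k))) ih (E.rfl' _))

theorem powL {j : ℕ} {y t : G} (hy : y ∈ X.lowerCentralSeries j) (ht : t ∈ X) (k : ℕ) :
    E X (j + 2) ⁅y ^ k, t⁆ (⁅y, t⁆ ^ k) := by
  induction k with
  | zero => simpa using E.rfl' 1
  | succ k ih =>
    rw [pow_succ, pow_succ]
    exact (mulL (pow_mem hy k) hy ht).trans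
      (E.mul (le_self X _ (comL (pow_mem hy k) ht)) ih (E.rfl' _))

/-- the first argument only matters modulo the next term -/
theorem congrL {j : ℕ} {y z t : G} (hz : z ∈ X.lowerCentralSeries j) (h : E X (j + 1) y z)
    (ht : t ∈ X) : E X (j + 2) ⁅y, t⁆ ⁅z, t⁆ := by
  have h1 := mulL (succ_le X j h) hz ht
  rw [inv_mul_cancel_right] at h1
  refine h1.trans ?_
  unfold E
  rw [mul_inv_cancel_right]
  exact comL h ht

theorem mem (X : Subgroup G) : ∀ (m : ℕ) (x : Fin (m + 1) → G), (∀ i, x i ∈ X) →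
    lc m x ∈ X.lowerCentralSeries m
  | 0, _, h => h 0
  | m + 1, x, h => comL (mem X m (Fin.init x) fun _ => h _) (h _)

theorem map {G' : Type} [Group G'] (f : G →* G') : ∀ (m : ℕ) (x : Fin (m + 1) → G),
    f (lc m x) = lc m fun i => f (x i)
  | 0, _ => rfl
  | m + 1, x => by
    show f ⁅lc m (Fin.init x), x (Fin.last (m + 1))⁆ = _
    rw [map_commutatorElement, map f m]
    rfl

theorem upd_mem {m : ℕ} {x : Fin m → G} (hx : ∀ i, x i ∈ X) (l : Fin m) {a : G} (ha : a ∈ X)
    (i : Fin m) : Function.update x l a i ∈ X := by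
  rcases eq_or_ne i l with rfl | h
  · simpa using ha
  · rw [Function.update_of_ne h]; exact hx i

theorem mul (X : Subgroup G) : ∀ (m : ℕ) (x : Fin (m + 1) → G) (l : Fin (m + 1)) (a b : G),
    (∀ i, x i ∈ X) → a ∈ X → b ∈ X →
    E X (m + 1) (lc m (Function.update x l (a * b)))
      (lc m (Function.update x l a) * lc m (Function.update x l b))
  | 0, x, l, a, b, _, _, _ => by
    have hl : l = 0 := Subsingleton.elim (α := Fin 1) _ _
    subst hl
    simp only [lc, Function.update_self]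
    exact E.rfl' _
  | m + 1, x, l, a, b, hx, ha, hb => by
    have hi : ∀ i, Fin.init x i ∈ X := fun i => hx _
    induction l using Fin.lastCases with
    | last =>
      simp only [lc, Fin.init_update_last, Function.update_self]
      exact mulR (mem X m _ hi) ha hb
    | cast l =>
      have hne : Fin.last (m + 1) ≠ l.castSucc := (Fin.castSucc_lt_last l).ne'
      simp only [lc, Fin.init_update_castSucc, Function.update_of_ne hne]
      have h1 := mem X m _ (upd_mem hi l ha)
      have h2 := mem X m _ (upd_mem hi l hb)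
      exact (congrL (mul_mem h1 h2) (mul X m _ l a b hi ha hb) (hx _)).trans (mulL h1 h2 (hx _))

/-- second arguments with commutator in `R` form a subgroup -/
def subR (X R : Subgroup G) (j : ℕ) (hR : X.lowerCentralSeries (j + 2) ≤ R) (y : G)
    (hy : y ∈ X.lowerCentralSeries j) : Subgroup G where
  carrier := {t | t ∈ X ∧ ⁅y, t⁆ ∈ R}
  one_mem' := ⟨one_mem _, by simp⟩
  mul_mem' := fun ha hb => ⟨mul_mem ha.1 hb.1, (mulR hy ha.1 hb.1).mem hR (mul_mem ha.2 hb.2)⟩
  inv_mem' := by
    intro a ha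
    refine ⟨inv_mem ha.1, ?_⟩
    have h := hR (mulR hy ha.1 (inv_mem ha.1))
    rw [mul_inv_cancel, commutatorElement_one_right, one_mul] at h
    have := mul_mem (inv_mem ha.2) (inv_mem h)
    rwa [inv_inv, inv_mul_cancel_left] at this

/-- first arguments with commutator in `R` form a subgroup -/
def subL (X R : Subgroup G) (j : ℕ) (hR : X.lowerCentralSeries (j + 2) ≤ R) (t : G)
    (ht : t ∈ X) : Subgroup G where
  carrier := {y | y ∈ X.lowerCentralSeries j ∧ ⁅y, t⁆ ∈ R}
  one_mem' := ⟨one_mem _, by simp⟩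
  mul_mem' := fun ha hb => ⟨mul_mem ha.1 hb.1, (mulL ha.1 hb.1 ht).mem hR (mul_mem ha.2 hb.2)⟩
  inv_mem' := by
    intro a ha
    refine ⟨inv_mem ha.1, ?_⟩
    have h := hR (mulL ha.1 (inv_mem ha.1) ht)
    rw [mul_inv_cancel, commutatorElement_one_left, one_mul] at h
    have := mul_mem (inv_mem ha.2) (inv_mem h)
    rwa [inv_inv, inv_mul_cancel_left] at this

theorem gen (T : Set G) : ∀ m : ℕ, (Subgroup.closure T).lowerCentralSeries m ≤
    Subgroup.closure {y | ∃ x : Fin (m + 1) → G, (∀ i, x i ∈ T) ∧ y = lc m x} ⊔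
      (Subgroup.closure T).lowerCentralSeries (m + 1)
  | 0 => by
    refine le_trans ?_ le_sup_left
    exact Subgroup.closure_mono fun t ht => ⟨fun _ => t, fun _ => ht, rfl⟩
  | m + 1 => by
    rw [Subgroup.lowerCentralSeries_succ, Subgroup.commutator_le]
    intro y hy t ht
    set R := Subgroup.closure {y | ∃ x : Fin (m + 1 + 1) → G, (∀ i, x i ∈ T) ∧ y = lc (m + 1) x} ⊔
      (Subgroup.closure T).lowerCentralSeries (m + 1 + 1) with hRdef
    have hR : (Subgroup.closure T).lowerCentralSeries (m + 2) ≤ R := le_sup_right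
    have key : Subgroup.closure T ≤ subR _ R m hR y hy := by
      rw [Subgroup.closure_le]
      intro s hs
      have hs' : s ∈ Subgroup.closure T := Subgroup.subset_closure hs
      refine ⟨hs', ?_⟩
      have h2 : (Subgroup.closure T).lowerCentralSeries m ≤ subL _ R m hR s hs' := by
        refine (gen T m).trans (sup_le ?_ ?_)
        · rw [Subgroup.closure_le]
          rintro _ ⟨x, hx, rfl⟩
          refine ⟨mem _ m x fun i => Subgroup.subset_closure (hx i), ?_⟩
          refine (le_sup_left : _ ≤ R) (Subgroup.subset_closure ⟨Fin.snoc x s, ?_, ?_⟩)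
          · intro i
            induction i using Fin.lastCases with
            | last => simpa using hs
            | cast i => simpa using hx i
          · simp only [lc, Fin.init_snoc, Fin.snoc_last]
        · intro z hz
          exact ⟨succ_le _ _ hz, hR (comL hz hs')⟩
      exact (h2 hy).2
    exact (key ht).2

theorem three {A B C N : Subgroup G} [N.Normal] (h1 : ⁅⁅B, C⁆, A⁆ ≤ N) (h2 : ⁅⁅C, A⁆, B⁆ ≤ N) :
    ⁅⁅A, B⁆, C⁆ ≤ N := by
  have e : ∀ H : Subgroup G, H ≤ N ↔ H.map (QuotientGroup.mk' N) = ⊥ := fun H => by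
    rw [Subgroup.map_eq_bot_iff, QuotientGroup.ker_mk']
  rw [e] at h1 h2 ⊢
  simp only [Subgroup.map_commutator] at h1 h2 ⊢
  exact Subgroup.commutator_commutator_eq_bot_of_rotate h1 h2

theorem addTop (G : Type) [Group G] : ∀ j i : ℕ,
    ⁅(⊤ : Subgroup G).lowerCentralSeries i, (⊤ : Subgroup G).lowerCentralSeries j⁆ ≤
      (⊤ : Subgroup G).lowerCentralSeries (i + j + 1)
  | 0, _ => le_rfl
  | j + 1, i => by
    rw [Subgroup.commutator_comm, Subgroup.lowerCentralSeries_succ (n := j)]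
    refine three ?_ ?_
    · rw [Subgroup.commutator_comm ⊤, ← Subgroup.lowerCentralSeries_succ,
        show i + (j + 1) + 1 = i + 1 + j + 1 by ring]
      exact addTop G j (i + 1)
    · exact Subgroup.commutator_mono (addTop G j i) le_rfl

theorem add (X : Subgroup G) (i j : ℕ) :
    ⁅X.lowerCentralSeries i, X.lowerCentralSeries j⁆ ≤ X.lowerCentralSeries (i + j + 1) := by
  rw [← X.top_subtype_lowerCentralSeries i, ← X.top_subtype_lowerCentralSeries j,
    ← X.top_subtype_lowerCentralSeries (i + j + 1), ← Subgroup.map_commutator]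
  exact Subgroup.map_mono (addTop X j i)

theorem mul_pow' {j : ℕ} {y z : G} (hy : y ∈ X.lowerCentralSeries j)
    (hz : z ∈ X.lowerCentralSeries j) (d : ℕ) : E X (j + 1) ((y * z) ^ d) (y ^ d * z ^ d) := by
  induction d with
  | zero => simpa using E.rfl' 1
  | succ d ih =>
    rw [pow_succ]
    refine (E.mul (le_self X _ (pow_mem (mul_mem hy hz) d)) ih (E.rfl' _)).trans ?_
    have h := conj (le_self X _ (pow_mem hy d)) (comL (pow_mem hz d) (le_self X _ hy))
    unfold E
    rwa [show y ^ d * ⁅z ^ d, y⁆ * (y ^ d)⁻¹ =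
      y ^ d * z ^ d * (y * z) * (y ^ (d + 1) * z ^ (d + 1))⁻¹ by
        simp only [commutatorElement_def, pow_succ]; group] at h

theorem muMem (X : Subgroup G) (j d : ℕ) (x : G) : x ∈ mu X j d ↔
    ∃ y ∈ X.lowerCentralSeries j, ∃ z ∈ X.lowerCentralSeries (j + 1), x = y ^ d * z := by
  constructor
  · intro hx
    let S : Subgroup G :=
      { carrier := {x | ∃ y ∈ X.lowerCentralSeries j, E X (j + 1) x (y ^ d)}
        one_mem' := ⟨1, one_mem _, by simpa using E.rfl' 1⟩
        mul_mem' := by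
          rintro a b ⟨y, hy, ha⟩ ⟨z, hz, hb⟩
          have haX : a ∈ X := ha.mem (le_self X _) (le_self X _ (pow_mem hy d))
          refine ⟨y * z, mul_mem hy hz, (E.mul haX ha hb).trans ?_⟩
          have := inv_mem (mul_pow' hy hz d)
          unfold E
          rwa [mul_inv_rev, inv_inv] at this
        inv_mem' := by
          rintro a ⟨y, hy, ha⟩
          have haX : a ∈ X := ha.mem (le_self X _) (le_self X _ (pow_mem hy d))
          refine ⟨y⁻¹, inv_mem hy, ?_⟩
          have := conj (inv_mem haX) (inv_mem ha)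
          unfold E
          rwa [show a⁻¹ * (a * (y ^ d)⁻¹)⁻¹ * a⁻¹⁻¹ = a⁻¹ * (y⁻¹ ^ d)⁻¹ by
            rw [inv_pow]; group] at this }
    have hS : mu X j d ≤ S := by
      refine sup_le ?_ ?_
      · unfold pw
        rw [Subgroup.closure_le]
        rintro _ ⟨y, hy, rfl⟩
        exact ⟨y, hy, E.rfl' _⟩
      · intro z hz
        exact ⟨1, one_mem _, by simpa [E] using hz⟩
    obtain ⟨y, hy, h⟩ := hS hx
    refine ⟨y, hy, (y ^ d)⁻¹ * x, ?_, by group⟩
    have := conj (inv_mem (le_self X _ (pow_mem hy d))) h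
    rwa [show (y ^ d)⁻¹ * (x * (y ^ d)⁻¹) * (y ^ d)⁻¹⁻¹ = (y ^ d)⁻¹ * x by group] at this
  · rintro ⟨y, hy, z, hz, rfl⟩
    exact mul_mem ((le_sup_left : _ ≤ mu X j d) (Subgroup.subset_closure ⟨y, hy, rfl⟩))
      ((le_sup_right : _ ≤ mu X j d) hz)

theorem top (X : Subgroup G) (n : ℕ) : ∀ j : ℕ,
    (pw X n).lowerCentralSeries j ≤ mu X j (n ^ (j + 1))
  | 0 => by
    rw [zero_add, pow_one]
    exact le_sup_left
  | j + 1 => by
    rw [Subgroup.lowerCentralSeries_succ, Subgroup.commutator_le]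
    intro a ha t ht
    obtain ⟨y, hy, z, hz, rfl⟩ := (muMem X j _ a).1 (top X n j ha)
    have hR : X.lowerCentralSeries (j + 2) ≤ mu X (j + 1) (n ^ (j + 1 + 1)) := le_sup_right
    have ha' : y ^ n ^ (j + 1) * z ∈ X.lowerCentralSeries j :=
      mul_mem (pow_mem hy _) (succ_le X j hz)
    have key : pw X n ≤ subR X _ j hR _ ha' := by
      unfold pw
      rw [Subgroup.closure_le]
      rintro _ ⟨s, hs, rfl⟩
      refine ⟨pow_mem hs n, ?_⟩
      have h1 : E X (j + 2) ⁅y ^ n ^ (j + 1) * z, s⁆ (⁅y, s⁆ ^ n ^ (j + 1)) :=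
        (congrL (pow_mem hy _) (E.of_mem (le_self X _ (pow_mem hy _)) hz) hs).trans (powL hy hs _)
      have h2 := (powR ha' hs n).trans (E.pow (le_self X _ (comL ha' hs)) h1 n)
      rw [← pow_mul, ← pow_succ] at h2
      exact h2.mem hR ((le_sup_left : _ ≤ mu X (j + 1) _)
        (Subgroup.subset_closure ⟨_, comL hy hs, rfl⟩))
    exact (key ht).2

section Stab

variable {N A : Type} [Group N] [AddCommGroup A] (ρ : Representation ℤ N A) (D : Subgroup N)

/-- the series of subgroups stabilised by `D` -/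
def ser (k : ℕ) : AddSubgroup A := AddSubgroup.closure
  {v | ∃ (l : List N) (a : A), k ≤ l.length ∧ (∀ y ∈ l, y ∈ D) ∧
    v = (l.map fun y => ρ y - 1).prod a}

variable {ρ D}

theorem ser_anti {k : ℕ} {v : A} (h : v ∈ ser ρ D (k + 1)) : v ∈ ser ρ D k := by
  refine AddSubgroup.closure_mono ?_ h
  rintro _ ⟨l, a, h1, h2, rfl⟩
  exact ⟨l, a, by omega, h2, rfl⟩

theorem ser_step {k : ℕ} {d : N} (hd : d ∈ D) {v : A} (h : v ∈ ser ρ D k) :
    ρ d v - v ∈ ser ρ D (k + 1) := by
  induction h using AddSubgroup.closure_induction with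
  | mem v hv =>
    obtain ⟨l, a, h1, h2, rfl⟩ := hv
    refine AddSubgroup.subset_closure ⟨d :: l, a, by simpa using h1, ?_, by simp⟩
    intro y hy
    rcases List.mem_cons.1 hy with rfl | hy
    · exact hd
    · exact h2 y hy
  | zero => simp
  | add v w _ _ hv hw =>
    have := add_mem hv hw
    rwa [show ρ d v - v + (ρ d w - w) = ρ d (v + w) - (v + w) by rw [map_add]; abel] at this
  | neg v _ hv =>
    have := neg_mem hv
    rwa [show -(ρ d v - v) = ρ d (-v) - -v by rw [map_neg]; abel] at this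

theorem ser_inv {k : ℕ} {d : N} (hd : d ∈ D) {v : A} (h : v ∈ ser ρ D k) :
    ρ d v ∈ ser ρ D k := by
  have := add_mem (ser_anti (ser_step hd h)) h
  rwa [sub_add_cancel] at this

theorem rmul (x y : N) (v : A) : ρ (x * y) v = ρ x (ρ y v) := by
  rw [map_mul]; rfl

theorem ser_lcs : ∀ (i : ℕ) (x : N), x ∈ D.lowerCentralSeries i → ∀ k, ∀ v ∈ ser ρ D k,
    ρ x v - v ∈ ser ρ D (k + i + 1)
  | 0, _, hx, _, _, hv => ser_step hx hv
  | i + 1, x, hx, k, v, hv => by
    let S : Subgroup N :=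
      { carrier := {x | x ∈ D ∧ ∀ v ∈ ser ρ D k, ρ x v - v ∈ ser ρ D (k + (i + 1) + 1)}
        one_mem' := ⟨one_mem _, fun v _ => by simp⟩
        mul_mem' := by
          rintro a b ⟨ha, ha'⟩ ⟨hb, hb'⟩
          refine ⟨mul_mem ha hb, fun v hv => ?_⟩
          have := add_mem (ser_inv ha (hb' v hv)) (ha' v hv)
          rwa [show ρ a (ρ b v - v) + (ρ a v - v) = ρ (a * b) v - v by
            rw [map_sub, rmul]; abel] at this
        inv_mem' := by
          rintro a ⟨ha, ha'⟩
          refine ⟨inv_mem ha, fun v hv => ?_⟩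
          have := neg_mem (ser_inv (inv_mem ha) (ha' v hv))
          rwa [show -(ρ a⁻¹ (ρ a v - v)) = ρ a⁻¹ v - v by
            rw [map_sub, ← rmul, inv_mul_cancel, map_one]; simp] at this }
    have hS : D.lowerCentralSeries (i + 1) ≤ S := by
      rw [Subgroup.lowerCentralSeries_succ, Subgroup.commutator_le]
      intro y hy t ht
      have hyD : y ∈ D := le_self D _ hy
      refine ⟨le_self D _ (comL hy ht), fun v hv => ?_⟩
      have hw : ρ (y⁻¹ * t⁻¹) v ∈ ser ρ D k := ser_inv (mul_mem (inv_mem hyD) (inv_mem ht)) hv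
      set w := ρ (y⁻¹ * t⁻¹) v with hwdef
      have e1 : ρ ⁅y, t⁆ v = ρ y (ρ t w) := by
        rw [hwdef, ← rmul, ← rmul, commutatorElement_def]; congr 2; group
      have e2 : v = ρ t (ρ y w) := by
        rw [hwdef, ← rmul, ← rmul, show t * y * (y⁻¹ * t⁻¹) = 1 by group, map_one]; rfl
      have h1 := ser_lcs i y hy (k + 1) _ (ser_step ht hw)
      have h2 := ser_step ht (ser_lcs i y hy k _ hw)
      rw [show k + 1 + i + 1 = k + (i + 1) + 1 by ring] at h1
      rw [show k + i + 1 + 1 = k + (i + 1) + 1 by ring] at h2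
      have h3 := sub_mem h1 h2
      rw [e1]
      clear_value w
      subst e2
      rwa [show ρ y (ρ t w - w) - (ρ t w - w) - (ρ t (ρ y w - w) - (ρ y w - w)) =
        ρ y (ρ t w) - ρ t (ρ y w) by rw [map_sub, map_sub]; abel] at h3
    exact (hS hx).2 v hv

theorem stab (n : ℕ) (h : Kill ρ 1 D (n + 1)) (x : N) (hx : x ∈ D.lowerCentralSeries n) :
    ρ x = 1 := by
  have hb : ser ρ D (n + 1) ≤ ⊥ := by
    unfold ser
    rw [AddSubgroup.closure_le]
    rintro _ ⟨l, a, h1, h2, rfl⟩
    have h3 := h (l.take (n + 1)) (by simp; omega) fun y hy => h2 y (List.mem_of_mem_take hy)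
    rw [one_smul] at h3
    rw [← List.take_append_drop (n + 1) l, List.map_append, List.prod_append, h3, zero_mul]
    simp
  ext v
  have h0 : v ∈ ser ρ D 0 := AddSubgroup.subset_closure ⟨[], v, le_rfl, by simp, by simp⟩
  have := ser_lcs n x hx 0 v h0
  rw [zero_add] at this
  have := hb this
  rw [AddSubgroup.mem_bot, sub_eq_zero] at this
  simpa using this

end Stab

end BComA

theorem bCom : BCom where
  mem := fun _ _ X m x h => BComA.mem X m x h
  gen := fun _ _ T m => BComA.gen T m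
  mul := fun _ _ X m x l a b hx ha hb => BComA.mul X m x l a b hx ha hb
  map := fun _ _ _ _ f m x => BComA.map f m x
  add := fun _ _ X i j => BComA.add X i j
  top := fun _ _ X j n => BComA.top X n j
  muMem := fun _ _ X j d x => BComA.muMem X j d x
  stab := fun _ _ _ _ _ _ n h x hx => BComA.stab n h x hx

end Pool.Agent.MP_5c28a4_al.H89S
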