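import Pool.Agent.MP_5c28a4_al.H35S.Id0W

/-! Row ID0, part 2: elimination of the terms of non-zero degree and the final substitution. -/

set_option autoImplicit false

namespace Pool.Agent.MP_5c28a4_al.H89S

namespace Id0A

open Finsupp
open scoped commutatorElement

/-- the degree in the second generator -/
noncomputable def deg (t : F2) : ℤ := (pr t).a

theorem deg_mul (s t : F2) : deg (s * t) = deg s + deg t := by
  unfold deg; rw [map_mul, mul_a]

theorem deg_inv (s : F2) : deg s⁻¹ = -deg s := by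
  unfold deg; rw [map_inv, inv_a]

/-- the elements of degree zero -/
noncomputable def D : Subgroup F2 := ((dH (AddMonoidHom.id ℤ)).comp pr).ker

theorem mem_D {t : F2} : t ∈ D ↔ deg t = 0 := Iff.rfl

instance : D.Normal := by unfold D; infer_instance

theorem DD_le : ⁅D, D⁆ ≤ D := Subgroup.commutator_le_left D D

/-- the value of a formal sum -/
noncomputable abbrev val {α R : Type} [AddCommGroup R] (σ : α → R) : (α →₀ ℤ) →ₗ[ℤ] R :=
  linearCombination ℤ σ

theorem val_congr {α R : Type} [AddCommGroup R] {σ σ' : α → R} {u : α →₀ ℤ}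
    (h : ∀ t ∈ u.support, σ t = σ' t) : val σ u = val σ' u := by
  rw [linearCombination_apply, linearCombination_apply]
  exact Finsupp.sum_congr fun t ht => by rw [h t ht]

theorem val_mul {α R : Type} [Ring R] (σ : α → R) (a b : R) (u : α →₀ ℤ) :
    val (fun t => a * σ t * b) u = a * val σ u * b := by
  rw [linearCombination_apply, linearCombination_apply, Finsupp.mul_sum, Finsupp.sum_mul]
  exact Finsupp.sum_congr fun t _ => by rw [mul_smul_comm, smul_mul_assoc]

open Classical in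
/-- the sum of the coefficients at the points with a property -/
noncomputable def cnt {α : Type} (Q : α → Prop) : (α →₀ ℤ) →ₗ[ℤ] ℤ :=
  val fun t => if Q t then 1 else 0

open Classical in
theorem cnt_eq {α : Type} (Q : α → Prop) (u : α →₀ ℤ) :
    cnt Q u = ∑ w ∈ u.support.filter Q, u w := by
  rw [cnt, linearCombination_apply, Finsupp.sum, Finset.sum_filter]
  exact Finset.sum_congr rfl fun t _ => by split_ifs <;> simp

theorem cnt_map {α β : Type} (Q : β → Prop) (g : α → β) (u : α →₀ ℤ) :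
    cnt Q (mapDomain g u) = cnt (fun t => Q (g t)) u := by
  unfold cnt
  rw [linearCombination_mapDomain]
  rfl

theorem cnt_congr {α : Type} {Q Q' : α → Prop} {u : α →₀ ℤ} (h : ∀ t ∈ u.support, Q t ↔ Q' t) :
    cnt Q u = cnt Q' u :=
  val_congr fun t ht => by rw [propext (h t ht)]

theorem cnt_zero {α : Type} {Q : α → Prop} {u : α →₀ ℤ} (h : ∀ t ∈ u.support, ¬ Q t) :
    cnt Q u = 0 := by
  classical
  rw [cnt_eq]
  exact Finset.sum_eq_zero fun t ht =>
    absurd (Finset.mem_filter.1 ht).2 (h t (Finset.mem_filter.1 ht).1)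

/-- the elements of degree zero act through a group of class two -/
def Cl2 {R : Type} [Ring R] (σ : F2 →* R) : Prop :=
  ∀ b ∈ ⁅D, D⁆, ∀ a ∈ D, σ (a⁻¹ * b * a) = σ b

/-- consequence -/
def Imp (u u' : F2 →₀ ℤ) : Prop :=
  ∀ (R : Type) [Ring R] (σ : F2 →* R), Cl2 σ → val σ u = 0 → val σ u' = 0

theorem step {p : ℕ} (hp : p.Prime) (u : F2 →₀ ℤ) (k : F2) (hk : deg k ≠ 0) :
    ∃ u' : F2 →₀ ℤ, Imp u u' ∧ cnt (K0 p) u' = cnt (K0 p) u ∧ ∀ t ∈ u'.support,
      ∃ s ∈ u.support, k⁻¹ * s ∉ ⁅D, D⁆ ∧ deg t = deg s ∧ (deg s = deg k → s⁻¹ * t ∈ ⁅D, D⁆) := by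
  classical
  obtain ⟨n, hn⟩ := Infinite.exists_notMem_finset (u.support.biUnion fun t => (pr t).f.support)
  have hn' : ∀ t ∈ u.support, (pr t).f n = 0 := fun t ht =>
    notMem_support_iff.1 fun h => hn (Finset.mem_biUnion.2 ⟨t, ht, h⟩)
  let a : F2 := Z ^ n * Y * (Z ^ n)⁻¹
  have hpa : pr a = ⟨single n 1, 0⟩ := pr_conj n
  have ha : a ∈ D := by rw [mem_D, deg, hpa]
  let a' : F2 := k⁻¹ * a * k
  have ha' : a' ∈ D := by
    have := (inferInstance : D.Normal).conj_mem a ha k⁻¹
    rwa [inv_inv] at this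
  have hpa' : (pr a').f = single (n - deg k) 1 := by
    simp only [a', map_mul, map_inv, hpa, mul_f, mul_a, inv_f, inv_a, AddMonoidHom.id_apply,
      add_zero, sh_single, deg]
    rw [add_assoc, add_comm (single _ _), neg_add_cancel_left, neg_add_eq_sub]
  let cj : F2 → F2 := fun t => a⁻¹ * t * a'
  have hdeg : ∀ t, deg (cj t) = deg t := fun t => by
    simp only [cj, deg_mul, deg_inv, mem_D.1 ha, mem_D.1 ha', neg_zero, zero_add, add_zero]
  let Q : F2 → Prop := fun t => k⁻¹ * t ∈ ⁅D, D⁆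
  let v : F2 →₀ ℤ := u.filter fun t => ¬ Q t
  have hv : ∀ t ∈ v.support, t ∈ u.support ∧ ¬ Q t := fun t ht => by
    rw [support_filter, Finset.mem_filter] at ht
    exact ht
  have hq : ∀ t ∈ (u.filter Q).support, Q t := fun t ht => by
    rw [support_filter, Finset.mem_filter] at ht
    exact ht.2
  have huv : u.filter Q + v = u := filter_add_filter_not u Q
  refine ⟨v - mapDomain cj v, fun R _ σ hσ h0 => ?_, ?_, fun t ht => ?_⟩
  · have e : ∀ x : F2 →₀ ℤ, val σ (mapDomain cj x) = σ a⁻¹ * val σ x * σ a' := fun x => by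
      rw [linearCombination_mapDomain, ← val_mul]
      exact val_congr fun t _ => by simp only [Function.comp, cj, map_mul]
    have e1 : val σ (mapDomain cj (u.filter Q)) = val σ (u.filter Q) := by
      rw [linearCombination_mapDomain]
      refine val_congr fun t ht => ?_
      have h1 : cj t = k * (a'⁻¹ * (k⁻¹ * t) * a') := by simp only [cj, a']; group
      rw [Function.comp, h1, map_mul, hσ _ (hq t ht) _ ha', ← map_mul, mul_inv_cancel_left]
    have e2 : val σ v = -val σ (u.filter Q) := by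
      rw [← huv, map_add] at h0
      exact eq_neg_of_add_eq_zero_right h0
    rw [map_sub, e, e2, mul_neg, neg_mul, ← e, e1, sub_self]
  · have e1 : cnt (K0 p) (mapDomain cj v) = 0 := by
      rw [cnt_map]
      refine cnt_zero fun t ht h => ?_
      have h1 : deg t = 0 := (hdeg t).symm.trans h.1
      have h2 := h.2 n
      have h3 : (pr (cj t)).f n = -1 := by
        have h4 : (pr t).a = 0 := h1
        have h5 : n - deg k ≠ n := fun e => hk (by omega)
        simp only [cj, map_mul, map_inv, hpa, mul_f, mul_a, inv_f, inv_a, AddMonoidHom.id_apply,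
          neg_zero, h4, add_zero, sh_zero, hpa', coe_add, coe_neg, Pi.add_apply, Pi.neg_apply,
          single_eq_same, hn' t (hv t ht).1, single_eq_of_ne' h5]
      rw [h3, dvd_neg] at h2
      exact hp.one_lt.ne' (by exact_mod_cast Int.eq_one_of_dvd_one (by positivity) h2)
    have e2 : cnt (K0 p) (u.filter Q) = 0 := cnt_zero fun t ht h => by
      have h1 := mem_D.1 (DD_le (hq t ht))
      have h2 : deg t = 0 := h.1
      rw [deg_mul, deg_inv, h2, add_zero, neg_eq_zero] at h1
      exact hk h1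
    rw [map_sub, e1, sub_zero]
    conv_rhs => rw [← huv, map_add, e2, zero_add]
  · rcases Finset.mem_union.1 (support_sub ht) with h | h
    · exact ⟨t, (hv t h).1, (hv t h).2, rfl, fun _ => by rw [inv_mul_cancel]; exact one_mem _⟩
    · obtain ⟨s, hs, rfl⟩ := Finset.mem_image.1 (mapDomain_support h)
      refine ⟨s, (hv s hs).1, (hv s hs).2, hdeg s, fun hd => ?_⟩
      have hb : k⁻¹ * s ∈ D := by rw [mem_D, deg_mul, deg_inv, hd, neg_add_cancel]
      have h1 : s⁻¹ * cj s = ⁅(k⁻¹ * s)⁻¹, a'⁻¹⁆ := by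
        simp only [cj, a', commutatorElement_def]; group
      rw [h1]
      exact Subgroup.commutator_mem_commutator (inv_mem hb) (inv_mem ha')

theorem elim2 {p : ℕ} (hp : p.Prime) (m : ℤ) (hm : m ≠ 0) (S : Set ℤ) (K : Finset F2)
    (hK : ∀ k ∈ K, deg k = m) : ∀ u : F2 →₀ ℤ,
    (∀ t ∈ u.support, deg t ∈ S ∨ (deg t = m ∧ ∃ k ∈ K, k⁻¹ * t ∈ ⁅D, D⁆)) →
    ∃ u' : F2 →₀ ℤ, Imp u u' ∧ cnt (K0 p) u' = cnt (K0 p) u ∧ ∀ t ∈ u'.support, deg t ∈ S := by
  classical
  induction K using Finset.induction_on with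
  | empty =>
    intro u hu
    refine ⟨u, fun _ _ _ _ h => h, rfl, fun t ht => (hu t ht).resolve_right ?_⟩
    rintro ⟨-, k, hk, -⟩
    simp at hk
  | insert k K _ ih =>
    intro u hu
    have hk : deg k = m := hK k (Finset.mem_insert_self _ _)
    obtain ⟨u₁, h1, h2, h3⟩ := step hp u k (hk ▸ hm)
    obtain ⟨u₂, h4, h5, h6⟩ := ih (fun k' hk' => hK k' (Finset.mem_insert_of_mem hk')) u₁
      fun t ht => by
        obtain ⟨s, hs, hs1, hs2, hs3⟩ := h3 t ht
        rcases hu s hs with h | ⟨h, k', hk', hk''⟩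
        · exact Or.inl (hs2 ▸ h)
        · refine Or.inr ⟨hs2.trans h, k', ?_, ?_⟩
          · rcases Finset.mem_insert.1 hk' with rfl | h'
            · exact absurd hk'' hs1
            · exact h'
          · have := mul_mem hk'' (hs3 (h.trans hk.symm))
            rwa [mul_assoc, mul_inv_cancel_left] at this
    exact ⟨u₂, fun R _ σ hσ h => h4 R σ hσ (h1 R σ hσ h), h5.trans h2, h6⟩

theorem elim1 {p : ℕ} (hp : p.Prime) (S : Finset ℤ) : ∀ u : F2 →₀ ℤ,
    (∀ t ∈ u.support, deg t = 0 ∨ deg t ∈ S) →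
    ∃ u' : F2 →₀ ℤ, Imp u u' ∧ cnt (K0 p) u' = cnt (K0 p) u ∧ ∀ t ∈ u'.support, deg t = 0 := by
  classical
  induction S using Finset.induction_on with
  | empty =>
    intro u hu
    exact ⟨u, fun _ _ _ _ h => h, rfl, fun t ht => (hu t ht).resolve_right (by simp)⟩
  | insert m S _ ih =>
    intro u hu
    by_cases hm : m = 0
    · refine ih u fun t ht => ?_
      rcases hu t ht with h | h
      · exact Or.inl h
      · rcases Finset.mem_insert.1 h with h | h
        · exact Or.inl (h.trans hm)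
        · exact Or.inr h
    · obtain ⟨u₁, h1, h2, h3⟩ := elim2 hp m hm {d | d = 0 ∨ d ∈ S}
        (u.support.filter fun t => deg t = m) (fun k hk => (Finset.mem_filter.1 hk).2) u
        fun t ht => by
          rcases hu t ht with h | h
          · exact Or.inl (Or.inl h)
          · rcases Finset.mem_insert.1 h with h | h
            · exact Or.inr ⟨h, t, Finset.mem_filter.2 ⟨ht, h⟩, by
                rw [inv_mul_cancel]; exact one_mem _⟩
            · exact Or.inl (Or.inr h)
      obtain ⟨u₂, h4, h5, h6⟩ := ih u₁ h3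
      exact ⟨u₂, fun R _ σ hσ h => h4 R σ hσ (h1 R σ hσ h), h5.trans h2, h6⟩

section Ev

variable {N : Type} [Group N]

theorem evz_of (y z : N) (a : ℤ) : evz y z (FreeGroup.of a) = z ^ a * y * (z ^ a)⁻¹ :=
  FreeGroup.lift_apply_of

/-- evaluation of words in two letters -/
def ev (y z : N) : F2 →* N := FreeGroup.lift fun b => cond b z y

theorem ev_Y (y z : N) : ev y z Y = y := FreeGroup.lift_apply_of

theorem ev_Z (y z : N) : ev y z Z = z := FreeGroup.lift_apply_of

theorem ev_evz (y z : N) (w : FreeGroup ℤ) : ev y z (evz Y Z w) = evz y z w := by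
  refine DFunLike.congr_fun (FreeGroup.ext_hom ((ev y z).comp (evz Y Z)) (evz y z) fun a => ?_) w
  rw [MonoidHom.comp_apply, evz_of, evz_of, map_mul, map_mul, map_inv, map_zpow, ev_Y, ev_Z]

theorem nz_zpow {P : Subgroup N} {z : N} (hz : Nz z P) (a : ℤ) :
    ∀ x ∈ P, z ^ a * x * (z ^ a)⁻¹ ∈ P := by
  induction a using Int.induction_on with
  | zero => intro x hx; simpa using hx
  | succ n ih =>
    intro x hx
    have := ih _ (hz x hx).1
    rwa [show z ^ (n : ℤ) * (z * x * z⁻¹) * (z ^ (n : ℤ))⁻¹ =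
      z ^ ((n : ℤ) + 1) * x * (z ^ ((n : ℤ) + 1))⁻¹ by group] at this
  | pred n ih =>
    intro x hx
    have := ih _ (hz x hx).2
    rwa [show z ^ (-(n : ℤ)) * (z⁻¹ * x * z) * (z ^ (-(n : ℤ)))⁻¹ =
      z ^ (-(n : ℤ) - 1) * x * (z ^ (-(n : ℤ) - 1))⁻¹ by group] at this

theorem evz_mem {P : Subgroup N} {y z : N} (hy : y ∈ P) (hz : Nz z P) (w : FreeGroup ℤ) :
    evz y z w ∈ P := by
  induction w using FreeGroup.induction_on with
  | C1 => rw [map_one]; exact one_mem _
  | of a => rw [evz_of]; exact nz_zpow hz a y hy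
  | inv_of a h => rw [map_inv]; exact inv_mem h
  | mul a b ha hb => rw [map_mul]; exact mul_mem ha hb

theorem conj_evz (y z : N) (n : ℤ) (w : FreeGroup ℤ) :
    z ^ n * evz y z w * (z ^ n)⁻¹ = evz y z (FreeGroup.map (fun a => n + a) w) := by
  refine DFunLike.congr_fun (FreeGroup.ext_hom ((MulAut.conj (z ^ n)).toMonoidHom.comp (evz y z))
    ((evz y z).comp (FreeGroup.map fun a => n + a)) fun a => ?_) w
  rw [MonoidHom.comp_apply, MonoidHom.comp_apply, FreeGroup.map.of, evz_of, evz_of]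
  change z ^ n * (z ^ a * y * (z ^ a)⁻¹) * (z ^ n)⁻¹ = _
  group

theorem normal_form (t : F2) : ∃ w, t = evz Y Z w * Z ^ deg t := by
  have hY : deg Y = 0 := by rw [deg, pr_Y]
  have hZ : deg Z = 1 := by
    have := pr_Z 1
    rw [zpow_one] at this
    rw [deg, this]
  induction t using FreeGroup.induction_on with
  | C1 => exact ⟨1, by simp [deg]⟩
  | of b =>
    cases b
    · exact ⟨FreeGroup.of 0, by
        change Y = _ * Z ^ deg Y
        rw [hY, evz_of]; simp⟩
    · exact ⟨1, by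
        change Z = _ * Z ^ deg Z
        rw [hZ]; simp⟩
  | inv_of b h =>
    obtain ⟨w, hw⟩ := h
    refine ⟨(FreeGroup.map (fun a => -deg (FreeGroup.of b) + a) w)⁻¹, ?_⟩
    rw [map_inv, ← conj_evz, deg_inv]
    nth_rewrite 1 [hw]
    group
  | mul s t hs ht =>
    obtain ⟨w, hw⟩ := hs
    obtain ⟨w', hw'⟩ := ht
    refine ⟨w * FreeGroup.map (fun a => deg s + a) w', ?_⟩
    rw [map_mul, ← conj_evz, deg_mul]
    nth_rewrite 1 [hw, hw']
    group

theorem exists_word {t : F2} (h : deg t = 0) : ∃ w, evz Y Z w = t := by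
  obtain ⟨w, hw⟩ := normal_form t
  rw [h, zpow_zero, mul_one] at hw
  exact ⟨w, hw.symm⟩

theorem cl2 {A : Type} [AddCommGroup A] (ρ : Representation ℤ N A) {P : Subgroup N} {y z : N}
    (hP : P.lowerCentralSeries 2 = ⊥) (hy : y ∈ P) (hz : Nz z P) :
    Cl2 (MonoidHom.comp ρ (ev y z)) := by
  have h1 : D.map (ev y z) ≤ P := by
    rintro _ ⟨t, ht, rfl⟩
    obtain ⟨w, rfl⟩ := exists_word (mem_D.1 ht)
    rw [ev_evz]
    exact evz_mem hy hz w
  intro b hb a ha
  have h2 : ev y z b ∈ P.lowerCentralSeries 1 := by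
    have := Subgroup.mem_map_of_mem (ev y z) hb
    rw [Subgroup.map_commutator] at this
    exact Subgroup.commutator_mono h1 h1 this
  have h3 : ⁅ev y z b, ev y z a⁆ ∈ P.lowerCentralSeries 2 :=
    Subgroup.commutator_mem_commutator h2 (h1 (Subgroup.mem_map_of_mem _ ha))
  rw [hP, Subgroup.mem_bot, commutatorElement_eq_one_iff_mul_comm] at h3
  rw [MonoidHom.comp_apply, MonoidHom.comp_apply, map_mul (ev y z), map_mul (ev y z), mul_assoc,
    h3, map_inv, inv_mul_cancel_left]

/-- the substitution that makes the exponent sum zero -/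
def sub : FreeGroup ℤ →* FreeGroup ℤ :=
  FreeGroup.lift fun a => (FreeGroup.of a)⁻¹ * FreeGroup.of (a + 1)

theorem evz_sub (y z : N) (w : FreeGroup ℤ) :
    evz y z (sub w) = evz (y⁻¹ * (z * y * z⁻¹)) z w := by
  refine DFunLike.congr_fun (FreeGroup.ext_hom ((evz y z).comp sub)
    (evz (y⁻¹ * (z * y * z⁻¹)) z) fun a => ?_) w
  rw [MonoidHom.comp_apply, sub, FreeGroup.lift_apply_of, map_mul, map_inv, evz_of, evz_of,
    evz_of]
  group

end Ev

theorem ab_one : ab 1 = 0 := by unfold ab; rw [map_one]; rfl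

theorem ab_mul (v w : FreeGroup ℤ) : ab (v * w) = ab v + ab w := by unfold ab; rw [map_mul]; rfl

theorem ab_inv (v : FreeGroup ℤ) : ab v⁻¹ = -ab v := by unfold ab; rw [map_inv]; rfl

theorem ab_of (a : ℤ) : ab (FreeGroup.of a) = single a 1 := by
  unfold ab; rw [FreeGroup.lift_apply_of]; rfl

theorem pr_evz (w : FreeGroup ℤ) : pr (evz Y Z w) = ⟨ab w, 0⟩ := by
  refine DFunLike.congr_fun (FreeGroup.ext_hom (pr.comp (evz Y Z)) ((bH _).comp
    (FreeGroup.lift fun a : ℤ => Multiplicative.ofAdd (single a (1 : ℤ)))) fun a => ?_) w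
  rw [MonoidHom.comp_apply, MonoidHom.comp_apply, evz_of, pr_conj, FreeGroup.lift_apply_of]
  rfl

theorem ab_sub (w : FreeGroup ℤ) : ab (sub w) = sh 1 (ab w) - ab w := by
  have h : ∀ a : ℤ, ab (sub (FreeGroup.of a)) = sh 1 (ab (FreeGroup.of a)) - ab (FreeGroup.of a) :=
    fun a => by
      rw [sub, FreeGroup.lift_apply_of, ab_mul, ab_inv, ab_of, ab_of, sh_single, add_comm 1 a,
        neg_add_eq_sub]
  induction w using FreeGroup.induction_on with
  | C1 => rw [map_one, ab_one, map_zero, sub_zero]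
  | of a => exact h a
  | inv_of a _ => rw [map_inv, ab_inv, ab_inv, h, map_neg]; abel
  | mul a b ha hb => rw [map_mul, ab_mul, ab_mul, ha, hb, map_add]; abel

theorem sum_sub (w : FreeGroup ℤ) : ((ab (sub w)).sum fun _ c => c) = 0 := by
  have e : ∀ f : ℤ →₀ ℤ, (f.sum fun _ c => c) = val (fun _ => (1 : ℤ)) f := fun f => by
    rw [linearCombination_apply]
    exact Finsupp.sum_congr fun _ _ => by simp
  rw [e, ab_sub, map_sub, sh_apply, linearCombination_mapDomain]
  exact sub_self _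

theorem dvd_sub_iff (p : ℕ) (f : ℤ →₀ ℤ) :
    (∀ a, (p : ℤ) ∣ (sh 1 f - f) a) ↔ ∀ a, (p : ℤ) ∣ f a := by
  have e : ∀ a, (sh 1 f - f) (1 + a) = f a - f (1 + a) := fun a => by
    rw [coe_sub, Pi.sub_apply, sh_val]
  constructor
  · intro h
    have h1 : ∀ a, (p : ℤ) ∣ f a - f (a + 1) := fun a => by
      have := h (1 + a)
      rwa [e, add_comm 1 a] at this
    have h2 : ∀ a, (p : ℤ) ∣ f a - f 0 := fun a => by
      induction a using Int.induction_on with
      | zero => simp
      | succ n ih =>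
        have := dvd_sub ih (h1 n)
        rwa [sub_sub_sub_cancel_left] at this
      | pred n ih =>
        have := dvd_add (h1 (-(n : ℤ) - 1)) ih
        rwa [sub_add_cancel, sub_add_sub_cancel] at this
    obtain ⟨n, hn⟩ := Infinite.exists_notMem_finset f.support
    intro a
    have := dvd_sub (h2 a) (h2 n)
    rwa [notMem_support_iff.1 hn, sub_sub_sub_cancel_right, sub_zero] at this
  · intro h a
    obtain ⟨b, rfl⟩ : ∃ b, a = 1 + b := ⟨a - 1, by ring⟩
    rw [e]
    exact dvd_sub (h _) (h _)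

end Id0A

open Id0A Finsupp in
theorem id0 : SID0 := by
  classical
  intro p u hp hu
  obtain ⟨ψ, t₁, h1⟩ := one_var p u hu
  let u₁ : F2 →₀ ℤ := mapDomain (fun w => ψ w * t₁⁻¹) u
  obtain ⟨u₂, h2, h3, h4⟩ := elim1 hp (u₁.support.image deg) u₁
    fun t ht => Or.inr (Finset.mem_image_of_mem _ ht)
  have h5 : ∀ t : F2, ∃ w, deg t = 0 → evz Y Z w = t := fun t => by
    by_cases h : deg t = 0
    · exact (exists_word h).imp fun _ hw _ => hw
    · exact ⟨1, fun h' => absurd h' h⟩
  choose s hs using h5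
  refine ⟨mapDomain (fun t => sub (s t)) u₂, 1, fun w hw => ?_, ?_, ?_⟩
  · obtain ⟨t, -, rfl⟩ := Finset.mem_image.1 (mapDomain_support hw)
    exact sum_sub _
  · have e : cnt (fun w => ∀ a, (p : ℤ) ∣ ab w a - ab 1 a) (mapDomain (fun t => sub (s t)) u₂) =
        cnt (fun w => K0 p (ψ w * t₁⁻¹)) u := by
      rw [cnt_map, ← cnt_map (K0 p), ← h3]
      refine cnt_congr fun t ht => ?_
      have h6 : pr t = ⟨ab (s t), 0⟩ := by rw [← pr_evz, hs t (h4 t ht)]
      simp only [ab_one, coe_zero, Pi.zero_apply, sub_zero, ab_sub, dvd_sub_iff, K0, h6, true_and]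
    rw [cnt_eq, cnt_eq] at e
    intro h
    apply h1
    convert h using 1
    convert e.symm
  · intro N A _ _ ρ hρ P y z hP hy hz
    have hy' : y⁻¹ * (z * y * z⁻¹) ∈ P := mul_mem (inv_mem hy) (hz y hy).1
    let σ : F2 →* Module.End ℤ A := MonoidHom.comp ρ (ev (y⁻¹ * (z * y * z⁻¹)) z)
    have h6 : val σ u₁ = 0 := by
      have h7 : val (fun w => σ (ψ w)) u = 0 := hρ ((ev (y⁻¹ * (z * y * z⁻¹)) z).comp ψ)
      have h8 := val_mul (fun w => σ (ψ w)) 1 (σ t₁⁻¹) u
      rw [h7, mul_zero, zero_mul] at h8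
      rw [linearCombination_mapDomain, ← h8]
      exact val_congr fun w _ => by simp only [Function.comp, map_mul, one_mul]
    have h9 := h2 _ σ (cl2 ρ hP hy' hz) h6
    change val (fun w => ρ (evz y z w)) (mapDomain (fun t => sub (s t)) u₂) = 0
    rw [linearCombination_mapDomain, ← h9]
    refine val_congr fun t ht => ?_
    simp only [Function.comp, σ, MonoidHom.comp_apply]
    rw [evz_sub, ← ev_evz, hs t (h4 t ht)]

end Pool.Agent.MP_5c28a4_al.H89S
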