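import Pool.Agent.MP_5c28a4_al.H89S.Spec

/-! Row ID0, part 1: wreath type groups and the separation of the words of the support. -/

set_option autoImplicit false

namespace Pool.Agent.MP_5c28a4_al.H89S

namespace Id0A

open Finsupp

section W

variable {A X : Type} [AddCommGroup A] [AddCommGroup X]

/-- translation of finitely supported functions -/
noncomputable def sh (x : X) : (X →₀ ℤ) →+ (X →₀ ℤ) := mapDomain.addMonoidHom fun a => x + a

theorem sh_apply (x : X) (f : X →₀ ℤ) : sh x f = mapDomain (fun a => x + a) f := rfl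

theorem sh_single (x a : X) (c : ℤ) : sh x (single a c) = single (x + a) c := by
  rw [sh_apply, mapDomain_single]

theorem sh_zero (f : X →₀ ℤ) : sh 0 f = f := by
  rw [sh_apply]
  simp only [zero_add]
  exact mapDomain_id

theorem sh_add (x y : X) (f : X →₀ ℤ) : sh (x + y) f = sh x (sh y f) := by
  rw [sh_apply, sh_apply, sh_apply, ← mapDomain_comp]
  congr 1
  funext a
  simp [add_assoc]

theorem sh_val (x a : X) (f : X →₀ ℤ) : sh x f (x + a) = f a :=
  mapDomain_apply (add_right_injective x) f a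

/-- the split extension of the functions on `X` by `A` -/
@[ext] structure W (ι : A →+ X) : Type where
  f : X →₀ ℤ
  a : A

variable {ι : A →+ X}

noncomputable instance : Mul (W ι) := ⟨fun s t => ⟨s.f + sh (ι s.a) t.f, s.a + t.a⟩⟩
noncomputable instance : One (W ι) := ⟨⟨0, 0⟩⟩
noncomputable instance : _root_.Inv (W ι) := ⟨fun s => ⟨-sh (ι (-s.a)) s.f, -s.a⟩⟩

@[simp] theorem mul_f (s t : W ι) : (s * t).f = s.f + sh (ι s.a) t.f := rfl
@[simp] theorem mul_a (s t : W ι) : (s * t).a = s.a + t.a := rfl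
@[simp] theorem one_f : (1 : W ι).f = 0 := rfl
@[simp] theorem one_a : (1 : W ι).a = 0 := rfl
@[simp] theorem inv_f (s : W ι) : (s⁻¹).f = -sh (ι (-s.a)) s.f := rfl
@[simp] theorem inv_a (s : W ι) : (s⁻¹).a = -s.a := rfl

noncomputable instance : Group (W ι) := Group.ofLeftAxioms
  (fun s t u => by
    ext1
    · simp only [mul_f, mul_a, map_add, sh_add, add_assoc]
    · simp only [mul_a, add_assoc])
  (fun s => by
    ext1
    · simp only [mul_f, one_f, one_a, map_zero, sh_zero, zero_add]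
    · simp only [mul_a, one_a, zero_add])
  (fun s => by
    ext1
    · simp only [mul_f, inv_f, inv_a, one_f, neg_add_cancel]
    · simp only [mul_a, inv_a, one_a, neg_add_cancel])

/-- the degree -/
noncomputable def dH (ι : A →+ X) : W ι →* Multiplicative A :=
  MonoidHom.mk' (fun s => Multiplicative.ofAdd s.a) fun _ _ => rfl

/-- the base group -/
noncomputable def bH (ι : A →+ X) : Multiplicative (X →₀ ℤ) →* W ι :=
  MonoidHom.mk' (fun f => ⟨f.toAdd, 0⟩) fun f g => by
    ext1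
    · simp only [toAdd_mul, mul_f, map_zero, sh_zero]
    · simp only [mul_a, add_zero]

/-- the top group -/
noncomputable def tH (ι : A →+ X) : Multiplicative A →* W ι :=
  MonoidHom.mk' (fun a => ⟨0, a.toAdd⟩) fun f g => by
    ext1
    · simp only [mul_f, map_zero, add_zero]
    · simp only [mul_a, toAdd_mul]

/-- functoriality -/
noncomputable def Wmap {A' X' : Type} [AddCommGroup A'] [AddCommGroup X'] {ι' : A' →+ X'}
    (l : A →+ A') (χ : X →+ X') (h : ∀ a, χ (ι a) = ι' (l a)) : W ι →* W ι' :=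
  MonoidHom.mk' (fun s => ⟨mapDomain χ s.f, l s.a⟩) fun s t => by
    ext1
    · simp only [mul_f, mapDomain_add, sh_apply, ← mapDomain_comp]
      congr 2
      funext x
      simp [h]
    · simp only [mul_a, map_add]

end W

section Sep

variable {T : Type} [Group T]

theorem hom_ext {ι : Type} {F G : Multiplicative (ι →₀ ℤ) →* T}
    (h : ∀ i, F (.ofAdd (single i 1)) = G (.ofAdd (single i 1))) (f : ι →₀ ℤ) :
    F (.ofAdd f) = G (.ofAdd f) := by
  induction f using Finsupp.induction_linear with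
  | zero => simp
  | add f g hf hg => rw [ofAdd_add, map_mul, map_mul, hf, hg]
  | single i c =>
    rw [← mul_one c, ← smul_eq_mul, ← smul_single, ofAdd_zsmul, map_zpow, map_zpow, h]

theorem exists_hom (B : Subgroup T) (hB : Cm B B) {ι : Type} (b : ι → T) (hb : ∀ i, b i ∈ B) :
    ∃ Θ : Multiplicative (ι →₀ ℤ) →* T, (∀ f, Θ f ∈ B) ∧ ∀ i, Θ (.ofAdd (single i 1)) = b i := by
  let _ : CommGroup B :=
    { (inferInstance : Group B) with mul_comm := fun x y => Subtype.ext (hB x x.2 y y.2) }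
  let L : (ι →₀ ℤ) →ₗ[ℤ] Additive B := linearCombination ℤ fun i => Additive.ofMul ⟨b i, hb i⟩
  refine ⟨MonoidHom.mk' (fun f => ((L f.toAdd).toMul : T)) fun f g => by simp, fun f => ?_,
    fun i => ?_⟩
  · exact ((L f.toAdd).toMul).2
  · simp [L]

/-- exponent vectors -/
abbrev AA : Type := ℕ →₀ ℤ

/-- the Magnus map -/
noncomputable def mag : FF →* W (AddMonoidHom.inl AA AA) :=
  FreeGroup.lift fun j => ⟨single (0, single j 1) 1, single j 1⟩

theorem sep (p : ℕ) (B C : Subgroup T) (hn : B.Normal) (hB : Cm B B) (hp : ∀ x ∈ B, x ^ p = 1)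
    (hC : Cm C C) (hBC : B ⊔ C = ⊤) (φ : FF →* T) (w w' : FF) (ha : (mag w).a = (mag w').a)
    (hf : ∀ x, (p : ℤ) ∣ (mag w).f x - (mag w').f x) : φ w = φ w' := by
  have h0 : ∀ j : ℕ, ∃ b ∈ B, ∃ c ∈ C, b * c = φ (FreeGroup.of j) := fun j =>
    Subgroup.mem_sup_of_normal_left.1 (hBC ▸ Subgroup.mem_top _)
  choose b hb c hc hbc using h0
  obtain ⟨fb, hfb, hfb'⟩ := exists_hom B hB b hb
  obtain ⟨fc, -, hfc'⟩ := exists_hom C hC c hc
  obtain ⟨Θ, hΘ, hΘ'⟩ := exists_hom B hB
    (fun x : AA × AA => fc (.ofAdd x.1) * fb (.ofAdd x.2) * (fc (.ofAdd x.1))⁻¹)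
    fun x => hn.conj_mem _ (hfb _) _
  have eqv : ∀ (α : AA) (f : (AA × AA) →₀ ℤ), Θ (.ofAdd (sh (α, 0) f)) =
      fc (.ofAdd α) * Θ (.ofAdd f) * (fc (.ofAdd α))⁻¹ := fun α f => by
    refine hom_ext (F := Θ.comp (AddMonoidHom.toMultiplicative (sh (α, 0))))
      (G := (MulAut.conj (fc (.ofAdd α))).toMonoidHom.comp Θ) (fun x => ?_) f
    change Θ (.ofAdd (sh (α, 0) (single x 1))) =
      fc (.ofAdd α) * Θ (.ofAdd (single x 1)) * (fc (.ofAdd α))⁻¹
    rw [sh_single, hΘ', hΘ']
    simp only [Prod.fst_add, Prod.snd_add, zero_add, ofAdd_add, map_mul]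
    group
  let θ : W (AddMonoidHom.inl AA AA) →* T :=
    MonoidHom.mk' (fun s => Θ (.ofAdd s.f) * fc (.ofAdd s.a)) fun s t => by
      simp only [mul_f, mul_a, ofAdd_add, map_mul, AddMonoidHom.inl_apply, eqv]
      group
  have hθ : θ.comp mag = φ := by
    ext j
    simp only [MonoidHom.comp_apply, mag, FreeGroup.lift_apply_of, θ, MonoidHom.mk'_apply, hΘ',
      hfb', hfc', ofAdd_zero, map_one, one_mul, inv_one, mul_one, hbc]
  have e1 : ∀ v, φ v = Θ (.ofAdd (mag v).f) * fc (.ofAdd (mag v).a) := fun v => by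
    rw [← hθ]; rfl
  have e2 : (mag w).f = (p : ℤ) • mapRange (fun c : ℤ => c / (p : ℤ)) (by simp) ((mag w).f - (mag w').f) +
      (mag w').f := by
    ext x
    simp only [coe_add, coe_smul, Pi.add_apply, Pi.smul_apply, mapRange_apply, coe_sub,
      Pi.sub_apply, smul_eq_mul]
    rw [Int.mul_ediv_cancel' (hf x), sub_add_cancel]
  rw [e1, e1, ha, e2, ofAdd_add, map_mul, ofAdd_zsmul, map_zpow, zpow_natCast, hp _ (hΘ _),
    one_mul]

theorem exists_fun {M : Type} [AddCommGroup M] (hM : ∀ x : M, x ≠ 0 → ∃ l : M →+ ℤ, l x ≠ 0)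
    (S : Finset M) (hS : ∀ x ∈ S, x ≠ 0) : ∃ l : M →+ ℤ, ∀ x ∈ S, l x ≠ 0 := by
  classical
  induction S using Finset.induction_on with
  | empty => exact ⟨0, by simp⟩
  | insert s S _ ih =>
    obtain ⟨l, hl⟩ := ih fun x hx => hS x (Finset.mem_insert_of_mem hx)
    by_cases h0 : l s = 0
    · obtain ⟨l', hl'⟩ := hM s (hS s (Finset.mem_insert_self _ _))
      let n : ℕ := S.sup (fun x => (l' x).natAbs) + 1
      refine ⟨(n : ℤ) • l + l', fun x hx => ?_⟩
      rcases Finset.mem_insert.1 hx with rfl | hx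
      · simpa [h0] using hl'
      · intro e
        have h1 : (l' x).natAbs ≤ S.sup fun x => (l' x).natAbs :=
          Finset.le_sup (f := fun x => (l' x).natAbs) hx
        have h2 : l' x = -((n : ℤ) * l x) := by
          simp only [AddMonoidHom.add_apply, AddMonoidHom.smul_apply, smul_eq_mul] at e
          linarith
        have h3 : (l' x).natAbs = n * (l x).natAbs := by
          rw [h2, Int.natAbs_neg, Int.natAbs_mul, Int.natAbs_natCast]
        have h4 : 1 ≤ (l x).natAbs := Int.natAbs_pos.2 (hl x hx)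
        have h5 : n * 1 ≤ n * (l x).natAbs := Nat.mul_le_mul_left n h4
        omega
    · refine ⟨l, fun x hx => ?_⟩
      rcases Finset.mem_insert.1 hx with rfl | hx
      · exact h0
      · exact hl x hx

theorem exists_inj (E : Finset (AA × AA)) :
    ∃ χ : AA × AA →+ ℤ, Set.InjOn χ (E : Set (AA × AA)) := by
  classical
  have hM : ∀ x : AA × AA, x ≠ 0 → ∃ l : AA × AA →+ ℤ, l x ≠ 0 := by
    rintro ⟨α, β⟩ hx
    by_cases h1 : α = 0
    · have h2 : β ≠ 0 := fun h => hx (by rw [h1, h]; rfl)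
      obtain ⟨j, hj⟩ := DFunLike.ne_iff.1 h2
      exact ⟨(applyAddHom j).comp (AddMonoidHom.snd AA AA), hj⟩
    · obtain ⟨j, hj⟩ := DFunLike.ne_iff.1 h1
      exact ⟨(applyAddHom j).comp (AddMonoidHom.fst AA AA), hj⟩
  obtain ⟨l, hl⟩ := exists_fun hM (((E ×ˢ E).image fun x => x.1 - x.2).erase 0)
    fun x hx => Finset.ne_of_mem_erase hx
  refine ⟨l, fun x hx y hy e => ?_⟩
  by_contra hne
  refine hl (x - y) (Finset.mem_erase.2 ⟨sub_ne_zero.2 hne,
    Finset.mem_image.2 ⟨(x, y), Finset.mem_product.2 ⟨hx, hy⟩, rfl⟩⟩) ?_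
  rw [map_sub, e, sub_self]

end Sep

/-- the free group on `Y` and `Z` -/
abbrev F2 : Type := FreeGroup Bool

/-- the first generator -/
def Y : F2 := FreeGroup.of false

/-- the second generator -/
def Z : F2 := FreeGroup.of true

/-- the map to the wreath product of two infinite cyclic groups -/
noncomputable def pr : F2 →* W (AddMonoidHom.id ℤ) :=
  FreeGroup.lift fun b => cond b ⟨0, 1⟩ ⟨single 0 1, 0⟩

theorem pr_Y : pr Y = ⟨single 0 1, 0⟩ := FreeGroup.lift_apply_of

theorem pr_Z (n : ℤ) : pr (Z ^ n) = ⟨0, n⟩ := by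
  have : pr Z = tH (AddMonoidHom.id ℤ) (.ofAdd 1) := FreeGroup.lift_apply_of
  rw [map_zpow, this, ← map_zpow, ← ofAdd_zsmul, smul_eq_mul, mul_one]
  rfl

theorem pr_conj (n : ℤ) : pr (Z ^ n * Y * (Z ^ n)⁻¹) = ⟨single n 1, 0⟩ := by
  rw [map_mul, map_mul, map_inv, pr_Z, pr_Y]
  ext1
  · simp [sh_single]
  · simp

/-- trivial image in the wreath product of the cyclic group of order `p` and the integers -/
def K0 (p : ℕ) (t : F2) : Prop := (pr t).a = 0 ∧ ∀ a, (p : ℤ) ∣ (pr t).f a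

theorem K0_iff (p : ℕ) (s t : F2) : K0 p (s * t⁻¹) ↔
    (pr s).a = (pr t).a ∧ ∀ a, (p : ℤ) ∣ (pr s).f a - (pr t).f a := by
  unfold K0
  rw [map_mul, map_inv, mul_a, inv_a, ← sub_eq_add_neg, sub_eq_zero]
  refine and_congr_right fun h => ?_
  rw [mul_f, inv_f, map_neg, ← sh_add, h]
  simp only [AddMonoidHom.id_apply, add_neg_cancel, sh_zero, ← sub_eq_add_neg, coe_sub,
    Pi.sub_apply]

open Classical in
/-- step (i): reduction to one variable -/
theorem one_var (p : ℕ) (u : FF →₀ ℤ) (hu : Good p u) : ∃ (ψ : FF →* F2) (t : F2),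
    ¬ (p : ℤ) ∣ ∑ w ∈ u.support.filter (fun w => K0 p (ψ w * t⁻¹)), u w := by
  obtain ⟨T, _, B, C, hn, hB, hp, hC, hBC, φ, t, ht⟩ := hu
  obtain ⟨χ, hχ⟩ := exists_inj (u.support.biUnion (fun w => (mag w).f.support) ∪
    u.support.image fun w => ((mag w).a, 0))
  let ψ : FF →* F2 := FreeGroup.lift fun j =>
    Z ^ χ (0, single j 1) * Y * (Z ^ χ (0, single j 1))⁻¹ * Z ^ χ (single j 1, 0)
  have hψ : pr.comp ψ = (Wmap (ι := AddMonoidHom.inl AA AA) (ι' := AddMonoidHom.id ℤ)
      (χ.comp (AddMonoidHom.inl AA AA)) χ fun _ => rfl).comp mag := by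
    refine FreeGroup.ext_hom _ _ fun j => ?_
    rw [MonoidHom.comp_apply, MonoidHom.comp_apply, FreeGroup.lift_apply_of, map_mul, pr_conj,
      pr_Z, mag, FreeGroup.lift_apply_of]
    ext1
    · simp [Wmap]
    · simp [Wmap]
  have hψ' : ∀ w, pr (ψ w) = ⟨mapDomain χ (mag w).f, χ ((mag w).a, 0)⟩ := fun w =>
    DFunLike.congr_fun hψ w
  have key : ∀ w ∈ u.support, ∀ w' ∈ u.support, K0 p (ψ w * (ψ w')⁻¹) → φ w = φ w' := by
    intro w hw w' hw' h
    rw [K0_iff, hψ', hψ'] at h
    refine sep p B C hn hB hp hC hBC φ w w' ?_ fun x => ?_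
    · have := hχ (by simp only [Finset.coe_union, Finset.coe_image]; exact Or.inr ⟨w, hw, rfl⟩)
        (by simp only [Finset.coe_union, Finset.coe_image]; exact Or.inr ⟨w', hw', rfl⟩) h.1
      exact congrArg Prod.fst this
    · have hs : ∀ v ∈ u.support, ((mag v).f.support : Set (AA × AA)) ⊆
          ↑(u.support.biUnion (fun w => (mag w).f.support) ∪
            u.support.image fun w => ((mag w).a, 0)) := fun v hv x hx =>
        Finset.mem_coe.2 (Finset.mem_union_left _ (Finset.mem_biUnion.2 ⟨v, hv, hx⟩))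
      by_cases hx : x ∈ (↑(u.support.biUnion (fun w => (mag w).f.support) ∪
            u.support.image fun w => ((mag w).a, 0)) : Set (AA × AA))
      · have := h.2 (χ x)
        rwa [mapDomain_apply' _ _ (hs w hw) hχ hx, mapDomain_apply' _ _ (hs w' hw') hχ hx] at this
      · rw [notMem_support_iff.1 fun h => hx (hs w hw h),
          notMem_support_iff.1 fun h => hx (hs w' hw' h)]
        simp
  let κ : FF → ℤ × (ℤ → ZMod p) := fun w => ((pr (ψ w)).a, fun a => ((pr (ψ w)).f a : ZMod p))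
  have hκ : ∀ w w', K0 p (ψ w * (ψ w')⁻¹) ↔ κ w = κ w' := fun w w' => by
    rw [K0_iff, Prod.ext_iff, funext_iff]
    refine and_congr_right fun _ => forall_congr' fun a => ?_
    rw [ZMod.intCast_eq_intCast_iff_dvd_sub, dvd_sub_comm]
  by_contra hcon
  push Not at hcon
  apply ht
  have e1 : mapDomain φ u t = ∑ w ∈ u.support.filter (fun w => φ w = t), u w := by
    rw [mapDomain, Finsupp.sum_apply, Finsupp.sum, Finset.sum_filter]
    exact Finset.sum_congr rfl fun w _ => single_apply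
  rw [e1, ← Finset.sum_fiberwise_of_maps_to (g := κ)
    (t := (u.support.filter fun w => φ w = t).image κ) fun w hw => Finset.mem_image_of_mem _ hw]
  refine Finset.dvd_sum fun y hy => ?_
  obtain ⟨w₁, hw₁, rfl⟩ := Finset.mem_image.1 hy
  have hw₁' := Finset.mem_filter.1 hw₁
  suffices h : (u.support.filter fun w => φ w = t).filter (fun w => κ w = κ w₁) =
      u.support.filter fun w => K0 p (ψ w * (ψ w₁)⁻¹) by
    rw [h]; exact hcon ψ (ψ w₁)
  ext w
  simp only [Finset.mem_filter, hκ]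
  constructor
  · rintro ⟨⟨h1, -⟩, h2⟩
    exact ⟨h1, h2⟩
  · rintro ⟨h1, h2⟩
    exact ⟨⟨h1, (key w h1 w₁ hw₁'.1 ((hκ _ _).2 h2)).trans hw₁'.2⟩, h2⟩

end Id0A

end Pool.Agent.MP_5c28a4_al.H89S
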